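import Pool.Agent.U624.KT.Stm

/-!
# KT-DES: the 2-adic step for pure quaternions (helper780; project of helper624)

`v = (A i + B j + C k) / 2` with `A² + B² + C² ∈ 4 R`. Modulo `√2` (residue field with four elements)
the vector `(A, B, C)` is zero, or `(0, λ, λ)` up to a cyclic permutation (rotation by 45 degrees),
or `λ (1, φ, φ²)` or `λ (1, φ², φ)` (rotation by 180 degrees about the axis
`(± i ± φ j ± (φ - 1) k) / 2`, with exactly one of four choices of the signs).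
-/

set_option autoImplicit false

open scoped Quaternion
open Quaternion (normSq)

namespace Pool.Agent.U780.KT.DES

open Pool.Agent.U624.KT

/-- divisible by `√2` in `R` -/
def D (x : K) : Prop := ∃ r ∈ R, x = s * r

lemma s_ne : s ≠ 0 := by
  intro h
  have := s_sq
  rw [h] at this
  norm_num at this

lemma s_mul (a b c d : ℚ) : s * mk a b c d = mk (2 * c) (2 * d) a b := by
  rw [s, mk_mul]
  exact mk_ext (by ring) (by ring) (by ring) (by ring)

lemma f_mul (a b c d : ℚ) : f * mk a b c d = mk b (a + b) d (c + d) := by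
  rw [f, mk_mul]
  exact mk_ext (by ring) (by ring) (by ring) (by ring)

lemma D_mk (a b c d : ℤ) : D (mk a b c d) ↔ Even a ∧ Even b := by
  constructor
  · rintro ⟨r, ⟨a', b', c', d', rfl⟩, h⟩
    rw [s_mul] at h
    obtain ⟨h0, h1, -, -⟩ := mk_inj h
    refine ⟨⟨c', ?_⟩, ⟨d', ?_⟩⟩
    · have : (a : ℚ) = c' + c' := by linarith
      exact_mod_cast this
    · have : (b : ℚ) = d' + d' := by linarith
      exact_mod_cast this
  · rintro ⟨⟨k, rfl⟩, ⟨l, rfl⟩⟩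
    refine ⟨mk c d k l, ⟨c, d, k, l, rfl⟩, ?_⟩
    rw [s_mul]
    exact mk_ext (by push_cast; ring) (by push_cast; ring) rfl rfl

lemma D_add {x y : K} (hx : D x) (hy : D y) : D (x + y) := by
  obtain ⟨r, hr, rfl⟩ := hx
  obtain ⟨t, ht, rfl⟩ := hy
  exact ⟨r + t, R.add_mem hr ht, by ring⟩

lemma D_neg {x : K} (hx : D x) : D (-x) := by
  obtain ⟨r, hr, rfl⟩ := hx
  exact ⟨-r, R.neg_mem hr, by ring⟩

lemma D_smul {x : K} (r : K) (hr : r ∈ R) (hx : D x) : D (r * x) := by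
  obtain ⟨t, ht, rfl⟩ := hx
  exact ⟨r * t, R.mul_mem hr ht, by ring⟩

lemma D_of_eq {x y : K} (h : D x) (e : x = y) : D y := e ▸ h

lemma D_two {x : K} (hx : x ∈ R) : D (2 * x) :=
  ⟨s * x, R.mul_mem s_mem hx, by linear_combination (-x) * s_sq⟩

lemma D_prime {x y : K} (hx : x ∈ R) (hy : y ∈ R) (h : D (x * y)) : D x ∨ D y := by
  obtain ⟨a, b, c, d, rfl⟩ := hx
  obtain ⟨a', b', c', d', rfl⟩ := hy
  have h' : D (mk ((a * a' + b * b' + 2 * (c * c' + d * d') : ℤ) : ℚ)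
      ((a * b' + b * a' + b * b' + 2 * (c * d' + d * c' + d * d') : ℤ) : ℚ)
      ((a * c' + b * d' + c * a' + d * b' : ℤ) : ℚ)
      ((a * d' + b * c' + b * d' + (c * b' + d * a' + d * b') : ℤ) : ℚ)) := by
    rw [mk_mul] at h
    push_cast
    exact h
  rw [D_mk] at h'
  rw [D_mk, D_mk]
  simp only [Int.even_add, Int.even_mul, even_two, true_or, iff_true] at h'
  tauto

lemma D_sq {x : K} (hx : x ∈ R) (h : D (x ^ 2)) : D x := by
  rw [sq] at h
  exact (D_prime hx hx h).elim id id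

lemma ratio {A x : K} (hA : A ∈ R) (hx : x ∈ R) (h : ¬ D A) :
    D x ∨ D (x - A) ∨ D (x - f * A) ∨ D (x - (f + 1) * A) := by
  obtain ⟨a, b, c, d, rfl⟩ := hA
  obtain ⟨a', b', c', d', rfl⟩ := hx
  have e1 : mk (a' : ℚ) b' c' d' - mk a b c d =
      mk ((a' - a : ℤ) : ℚ) ((b' - b : ℤ) : ℚ) ((c' - c : ℤ) : ℚ) ((d' - d : ℤ) : ℚ) := by
    rw [mk_sub]
    push_cast
    rfl
  have e2 : mk (a' : ℚ) b' c' d' - f * mk a b c d =
      mk ((a' - b : ℤ) : ℚ) ((b' - (a + b) : ℤ) : ℚ) ((c' - d : ℤ) : ℚ)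
        ((d' - (c + d) : ℤ) : ℚ) := by
    rw [f_mul, mk_sub]
    push_cast
    rfl
  have e3 : mk (a' : ℚ) b' c' d' - (f + 1) * mk a b c d =
      mk ((a' - (b + a) : ℤ) : ℚ) ((b' - (a + b + b) : ℤ) : ℚ) ((c' - (d + c) : ℤ) : ℚ)
        ((d' - (c + d + d) : ℤ) : ℚ) := by
    rw [add_mul, one_mul, f_mul, mk_add, mk_sub]
    push_cast
    rfl
  rw [e1, e2, e3]
  rw [D_mk] at h
  simp only [D_mk]
  simp only [Int.even_add, Int.even_sub]
  tauto

/-- the conclusion -/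
def Con (v : ℍ[K]) : Prop :=
  ∃ g w : ℍ[K], (normSq g = 1 ∨ normSq g = 2 + s) ∧ RQ g ∧ OS w ∧ w.re = 0 ∧ g * v = w * g

lemma two_mem : (2 : K) ∈ R := by
  have := R.add_mem R.one_mem R.one_mem
  rwa [one_add_one_eq_two] at this

lemma OS_of {w : ℍ[K]} (h0 : w.re = 0) {a b c : K} (ha : a ∈ R) (hb : b ∈ R) (hc : c ∈ R)
    (h1 : w.imI = s * a / 2) (h2 : w.imJ = s * b / 2) (h3 : w.imK = s * c / 2)
    (h4 : D (a + b + c)) : OS w := by
  obtain ⟨m, hm, h4⟩ := h4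
  have hs := s_sq
  have key : ∀ x ∈ R, 2 * (s * x / 2) ∈ R ∧ s * (0 - s * x / 2) ∈ R := by
    intro x hx
    constructor
    · have : 2 * (s * x / 2) = s * x := by ring
      rw [this]
      exact R.mul_mem s_mem hx
    · have : s * (0 - s * x / 2) = -x := by
        linear_combination (-x / 2) * hs
      rw [this]
      exact R.neg_mem hx
  refine ⟨?_, ?_, ?_, ?_, ?_, ?_, ?_, ?_⟩
  · rw [h0, mul_zero]
    exact R.zero_mem
  · rw [h1]
    exact (key a ha).1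
  · rw [h2]
    exact (key b hb).1
  · rw [h3]
    exact (key c hc).1
  · rw [h0, h1]
    exact (key a ha).2
  · rw [h0, h2]
    exact (key b hb).2
  · rw [h0, h3]
    exact (key c hc).2
  · rw [h0, h1, h2, h3]
    have : (0 : K) + s * a / 2 + s * b / 2 + s * c / 2 = m := by
      linear_combination (s / 2) * h4 + (m / 2) * hs
    rw [this]
    exact hm

lemma OS_of' {w : ℍ[K]} (h0 : w.re = 0) {a b c : K} (ha : a ∈ R) (hb : b ∈ R) (hc : c ∈ R)
    (h1 : w.imI = s * a / 2) (h2 : w.imJ = s * b / 2) (h3 : w.imK = s * c / 2)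
    (hn : normSq w ∈ R) : OS w := by
  refine OS_of h0 ha hb hc h1 h2 h3 (D_sq (R.add_mem (R.add_mem ha hb) hc) ?_)
  have hs := s_sq
  have h4 : normSq w = (a ^ 2 + b ^ 2 + c ^ 2) / 2 := by
    rw [Quaternion.normSq_def', h0, h1, h2, h3]
    linear_combination ((a ^ 2 + b ^ 2 + c ^ 2) / 4) * hs
  refine ⟨s * (normSq w + (a * b + b * c + c * a)), R.mul_mem s_mem (R.add_mem hn
    (R.add_mem (R.add_mem (R.mul_mem ha hb) (R.mul_mem hb hc)) (R.mul_mem hc ha))), ?_⟩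
  rw [h4]
  linear_combination (-((a ^ 2 + b ^ 2 + c ^ 2) / 2 + (a * b + b * c + c * a))) * hs

/-- a quaternion with given coordinates -/
noncomputable def qt (a b c d : K) : ℍ[K] := ⟨a, b, c, d⟩

lemma qt_re (a b c d : K) : (qt a b c d).re = a := rfl
lemma qt_I (a b c d : K) : (qt a b c d).imI = b := rfl
lemma qt_J (a b c d : K) : (qt a b c d).imJ = c := rfl
lemma qt_K (a b c d : K) : (qt a b c d).imK = d := rfl
lemma qt_eta (q : ℍ[K]) : qt q.re q.imI q.imJ q.imK = q := rfl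

lemma qt_mul (a b c d a' b' c' d' : K) : qt a b c d * qt a' b' c' d' =
    qt (a * a' - b * b' - c * c' - d * d') (a * b' + b * a' + c * d' - d * c')
      (a * c' - b * d' + c * a' + d * b') (a * d' + b * c' - c * b' + d * a') := by
  ext
  · rw [Quaternion.re_mul]; simp only [qt_re, qt_I, qt_J, qt_K]
  · rw [Quaternion.imI_mul]; simp only [qt_re, qt_I, qt_J, qt_K]
  · rw [Quaternion.imJ_mul]; simp only [qt_re, qt_I, qt_J, qt_K]
  · rw [Quaternion.imK_mul]; simp only [qt_re, qt_I, qt_J, qt_K]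

lemma qt_norm (a b c d : K) : normSq (qt a b c d) = a ^ 2 + b ^ 2 + c ^ 2 + d ^ 2 := by
  rw [Quaternion.normSq_def']
  simp only [qt_re, qt_I, qt_J, qt_K]

lemma qt_ext {a b c d a' b' c' d' : K} (h0 : a = a') (h1 : b = b') (h2 : c = c') (h3 : d = d') :
    qt a b c d = qt a' b' c' d' := by rw [h0, h1, h2, h3]

/-- rotation by 180 degrees -/
lemma rot (p q r a b c : K) (h : p ^ 2 + q ^ 2 + r ^ 2 = 1) :
    qt 0 p q r * qt 0 a b c =
      qt 0 (2 * (p * a + q * b + r * c) * p - a) (2 * (p * a + q * b + r * c) * q - b)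
        (2 * (p * a + q * b + r * c) * r - c) * qt 0 p q r := by
  rw [qt_mul, qt_mul]
  refine qt_ext ?_ ?_ ?_ ?_
  · linear_combination (2 * (p * a + q * b + r * c)) * h
  · ring
  · ring
  · ring

lemma RQ_half {t : K} (h : t ∈ R) : t / 2 ∈ R2 := by
  refine ⟨1, ?_⟩
  have : (2 : K) ^ 1 * (t / 2) = t := by ring
  rw [this]
  exact h

/-- the residues `λ (1, φ, φ²)`, a choice of the signs -/
lemma even1 {A B C y z u e1 e2 e3 k1 k2 k3 : K} (hA : A ∈ R) (hy : y ∈ R) (hz : z ∈ R)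
    (hu : u ∈ R) (h1R : e1 ∈ R) (h2R : e2 ∈ R) (h3R : e3 ∈ R) (hk1 : k1 ∈ R) (hk2 : k2 ∈ R)
    (hk3 : k3 ∈ R) (hB : B = f * A + 2 * y) (hC : C = (f + 1) * A + 2 * z) (he1 : e1 ^ 2 = 1)
    (he2 : e2 ^ 2 = 1) (he3 : e3 ^ 2 = 1) (h1 : e1 - 1 = 2 * k1) (h2 : e2 - 1 = 2 * k2)
    (h3 : e3 * (f - 1) - (f + 1) = 2 * k3)
    (hP : e1 * A + e2 * f * B + e3 * (f - 1) * C = 2 * (A + s * u))
    (hn : normSq (qt 0 (A / 2) (B / 2) (C / 2)) ∈ R) : Con (qt 0 (A / 2) (B / 2) (C / 2)) := by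
  have hs := s_sq
  have hf := f_sq
  have hq : (e1 / 2) ^ 2 + (e2 * f / 2) ^ 2 + (e3 * (f - 1) / 2) ^ 2 = 1 := by
    linear_combination (1 / 4) * he1 + (f ^ 2 / 4) * he2 + ((f - 1) ^ 2 / 4) * he3 + (1 / 2) * hf
  have hr := rot (e1 / 2) (e2 * f / 2) (e3 * (f - 1) / 2) (A / 2) (B / 2) (C / 2) hq
  have hP' : 2 * (e1 / 2 * (A / 2) + e2 * f / 2 * (B / 2) + e3 * (f - 1) / 2 * (C / 2)) =
      A + s * u := by linear_combination (1 / 2) * hP
  rw [hP'] at hr
  have hg : normSq (qt 0 (e1 / 2) (e2 * f / 2) (e3 * (f - 1) / 2)) = 1 := by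
    rw [qt_norm]
    linear_combination hq
  have f1 : f - 1 ∈ R := R.sub_mem f_mem R.one_mem
  refine ⟨_, _, Or.inl hg, ⟨?_, RQ_half h1R, RQ_half (R.mul_mem h2R f_mem),
    RQ_half (R.mul_mem h3R f1)⟩, ?_, qt_re _ _ _ _, hr⟩
  · exact R2.zero_mem
  · refine OS_of' (a := s * k1 * A + e1 * u) (b := s * k2 * (f * A) + e2 * f * u - s * y)
      (c := s * k3 * A + e3 * (f - 1) * u - s * z) (qt_re _ _ _ _) ?_ ?_ ?_ ?_ ?_ ?_ ?_
    · exact R.add_mem (R.mul_mem (R.mul_mem s_mem hk1) hA) (R.mul_mem h1R hu)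
    · exact R.sub_mem (R.add_mem (R.mul_mem (R.mul_mem s_mem hk2) (R.mul_mem f_mem hA))
        (R.mul_mem (R.mul_mem h2R f_mem) hu)) (R.mul_mem s_mem hy)
    · exact R.sub_mem (R.add_mem (R.mul_mem (R.mul_mem s_mem hk3) hA)
        (R.mul_mem (R.mul_mem h3R f1) hu)) (R.mul_mem s_mem hz)
    · rw [qt_I]
      linear_combination (A / 2) * h1 - (k1 * A / 2) * hs
    · rw [qt_J]
      linear_combination (f * A / 2) * h2 - (1 / 2) * hB - ((k2 * (f * A) - y) / 2) * hs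
    · rw [qt_K]
      linear_combination (A / 2) * h3 - (1 / 2) * hC - ((k3 * A - z) / 2) * hs
    · have h5 := congrArg normSq hr
      rw [map_mul, map_mul, hg, one_mul, mul_one] at h5
      rw [← h5]
      exact hn

lemma cas_even {A B C : K} (hA : A ∈ R)
    (hn : normSq (qt 0 (A / 2) (B / 2) (C / 2)) ∈ R)
    (h0 : ¬ D A) (h1 : D (B - f * A)) (h2 : D (C - (f + 1) * A)) :
    Con (qt 0 (A / 2) (B / 2) (C / 2)) := by
  have hs := s_sq
  have hf := f_sq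
  have h1R : (1 : K) ∈ R := R.one_mem
  have h1R' : (-1 : K) ∈ R := R.neg_mem R.one_mem
  have h0R : (0 : K) ∈ R := R.zero_mem
  have hfA := R.mul_mem f_mem hA
  have hf1 : f + 1 ∈ R := R.add_mem f_mem R.one_mem
  have hf1' : f - 1 ∈ R := R.sub_mem f_mem R.one_mem
  obtain ⟨b, hb, hb'⟩ := h1
  obtain ⟨c, hc, hc'⟩ := h2
  have hB' : B = f * A + s * b := by linear_combination hb'
  have hC' : C = (f + 1) * A + s * c := by linear_combination hc'
  -- `s A (f b + (f + 1) c) + b² + c² ∈ 2 R`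
  set n := normSq (qt 0 (A / 2) (B / 2) (C / 2)) with hn'
  have e1 : s * A * (f * b + (f + 1) * c) + b ^ 2 + c ^ 2 =
      2 * (n - (f + 1) * A ^ 2) := by
    rw [hn', qt_norm, hB', hC']
    linear_combination (-((b ^ 2 + c ^ 2) / 2)) * hs - A ^ 2 * hf
  have hbc : D (b + c) := by
    refine D_sq (R.add_mem hb hc) ?_
    refine ⟨s * (n - (f + 1) * A ^ 2) - A * (f * b + (f + 1) * c) + s * (b * c), ?_, ?_⟩
    · exact R.add_mem (R.sub_mem (R.mul_mem s_mem (R.sub_mem hn (R.mul_mem hf1 (R.pow_mem hA 2))))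
        (R.mul_mem hA (R.add_mem (R.mul_mem f_mem hb) (R.mul_mem hf1 hc))))
        (R.mul_mem s_mem (R.mul_mem hb hc))
    · linear_combination e1 - (n - (f + 1) * A ^ 2 + b * c) * hs
  obtain ⟨t, ht, ht'⟩ := hbc
  have e2 : D (A * (f * b + (f + 1) * c)) := by
    refine ⟨n - (f + 1) * A ^ 2 - t ^ 2 + b * c, ?_, ?_⟩
    · exact R.add_mem (R.sub_mem (R.sub_mem hn (R.mul_mem hf1 (R.pow_mem hA 2)))
        (R.pow_mem ht 2)) (R.mul_mem hb hc)
    · apply mul_left_cancel₀ s_ne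
      linear_combination e1 - (n - (f + 1) * A ^ 2 - t ^ 2 + b * c) * hs - (b + c + s * t) * ht' - t ^ 2 * hs
  have e3 : D (f * b + (f + 1) * c) := (D_prime hA (R.add_mem (R.mul_mem f_mem hb)
    (R.mul_mem hf1 hc)) e2).resolve_left h0
  have e4 : D b := by
    obtain ⟨r, hr, hr'⟩ := e3
    refine ⟨(f + 1) * t - r, ?_, ?_⟩
    · exact R.sub_mem (R.mul_mem hf1 ht) hr
    · linear_combination (f + 1) * ht' - hr'
  have e5 : D c := by
    have := D_add ⟨t, ht, ht'⟩ (D_neg e4)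
    rwa [add_neg_cancel_comm] at this
  obtain ⟨y, hy, hy'⟩ := e4
  obtain ⟨z, hz, hz'⟩ := e5
  have hB2 : B = f * A + 2 * y := by rw [hB', hy']; linear_combination y * hs
  have hC2 : C = (f + 1) * A + 2 * z := by rw [hC', hz']; linear_combination z * hs
  have hψ : f * y + (f - 1) * z ∈ R := R.add_mem (R.mul_mem f_mem hy) (R.mul_mem hf1' hz)
  rcases ratio hA hψ h0 with h | h | h | h
  · obtain ⟨u, hu, hu'⟩ := h
    refine even1 (u := u - s * ((f - 1) * z)) (e1 := 1) (e2 := 1) (e3 := -1) (k1 := 0) (k2 := 0)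
      (k3 := -f) hA hy hz (R.sub_mem hu (R.mul_mem s_mem (R.mul_mem hf1' hz))) h1R h1R h1R' h0R h0R
      (R.neg_mem f_mem) hB2 hC2 (by ring) (by ring) (by ring) (by ring) (by ring) (by ring) ?_ hn
    linear_combination f * hB2 - (f - 1) * hC2 + 2 * hu' + (2 * (f - 1) * z) * hs
  · obtain ⟨u, hu, hu'⟩ := h
    refine even1 (u := u - s * (f * y)) (e1 := 1) (e2 := -1) (e3 := 1) (k1 := 0) (k2 := -1)
      (k3 := -1) hA hy hz (R.sub_mem hu (R.mul_mem s_mem (R.mul_mem f_mem hy))) h1R h1R' h1R h0R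
      h1R' h1R' hB2 hC2 (by ring) (by ring) (by ring) (by ring) (by ring) (by ring) ?_ hn
    linear_combination -f * hB2 + (f - 1) * hC2 + 2 * hu' + (2 * f * y) * hs
  · obtain ⟨u, hu, hu'⟩ := h
    refine even1 (u := u + s * (f * A)) (e1 := 1) (e2 := 1) (e3 := 1) (k1 := 0) (k2 := 0)
      (k3 := -1) hA hy hz (R.add_mem hu (R.mul_mem s_mem hfA)) h1R h1R h1R h0R
      h0R h1R' hB2 hC2 (by ring) (by ring) (by ring) (by ring) (by ring) (by ring) ?_ hn
    linear_combination f * hB2 + (f - 1) * hC2 + 2 * hu' - (2 * f * A) * hs + (2 * A) * hf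
  · obtain ⟨u, hu, hu'⟩ := h
    refine even1 (u := u + s * (f * A)) (e1 := -1) (e2 := 1) (e3 := 1) (k1 := -1) (k2 := 0)
      (k3 := -1) hA hy hz (R.add_mem hu (R.mul_mem s_mem hfA)) h1R' h1R h1R h1R'
      h0R h1R' hB2 hC2 (by ring) (by ring) (by ring) (by ring) (by ring) (by ring) ?_ hn
    linear_combination f * hB2 + (f - 1) * hC2 + 2 * hu' - (2 * f * A) * hs + (2 * A) * hf

/-- rotation by 45 degrees -/
lemma rot45 (x y z : K) : qt (1 + s / 2) (s / 2) 0 0 * qt 0 x y z =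
    qt 0 x (s * (y - z) / 2) (s * (y + z) / 2) * qt (1 + s / 2) (s / 2) 0 0 := by
  have hs := s_sq
  rw [qt_mul, qt_mul]
  refine qt_ext ?_ ?_ ?_ ?_
  · ring
  · ring
  · linear_combination (-(y / 2)) * hs
  · linear_combination (-(z / 2)) * hs

lemma cas_axis {A B C : K} (hA : A ∈ R) (hB : B ∈ R)
    (hn : normSq (qt 0 (A / 2) (B / 2) (C / 2)) ∈ R)
    (h0 : ¬ D B) (h1 : D A) (h2 : D (B + C)) : Con (qt 0 (A / 2) (B / 2) (C / 2)) := by
  have hs := s_sq
  obtain ⟨a, ha, rfl⟩ := h1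
  obtain ⟨t, ht, ht'⟩ := h2
  have hC' : C = s * t - B := by linear_combination ht'
  set n := normSq (qt 0 (s * a / 2) (B / 2) (C / 2)) with hn'
  have e1 : 2 * n = a ^ 2 + B ^ 2 + t ^ 2 - s * t * B := by
    rw [hn', qt_norm, hC']
    linear_combination ((a ^ 2 + t ^ 2) / 2) * hs
  have hX : a * t + a * B + t * B ∈ R :=
    R.add_mem (R.add_mem (R.mul_mem ha ht) (R.mul_mem ha hB)) (R.mul_mem ht hB)
  have hm : D (a + t + B) := by
    refine D_sq (R.add_mem (R.add_mem ha ht) hB) ⟨s * n + t * B + s * (a * t + a * B + t * B),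
      R.add_mem (R.add_mem (R.mul_mem s_mem hn) (R.mul_mem ht hB)) (R.mul_mem s_mem hX), ?_⟩
    linear_combination -e1 - (n + (a * t + a * B + t * B)) * hs
  obtain ⟨m, hm, hm'⟩ := hm
  have e2 : D (t * B) := by
    refine ⟨m ^ 2 - n - (a * t + a * B + t * B), R.sub_mem (R.sub_mem (R.pow_mem hm 2) hn) hX, ?_⟩
    apply mul_left_cancel₀ s_ne
    linear_combination e1 + (a + t + B + s * m) * hm' + (n + (a * t + a * B + t * B)) * hs
  obtain ⟨t', ht1, rfl⟩ := (D_prime ht hB e2).resolve_right h0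
  have hg : normSq (qt (1 + s / 2) (s / 2) 0 0) = 2 + s := by
    rw [qt_norm]
    linear_combination (1 / 2) * hs
  refine ⟨_, _, Or.inr hg, ⟨?_, RQ_half s_mem, R2.zero_mem, R2.zero_mem⟩, ?_, qt_re _ _ _ _,
    rot45 (s * a / 2) (B / 2) (C / 2)⟩
  · have : (qt (1 + s / 2) (s / 2) 0 0).re = (2 + s) / 2 := by
      rw [qt_re]
      ring
    rw [this]
    exact RQ_half (R.add_mem two_mem s_mem)
  · refine OS_of (a := a) (b := B - t') (c := t') (qt_re _ _ _ _) ha (R.sub_mem hB ht1) ht1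
      (qt_I _ _ _ _) ?_ ?_ ⟨m - t', R.sub_mem hm ht1, ?_⟩
    · rw [qt_J]
      linear_combination (-(s / 4)) * ht' - (s * t' / 4) * hs
    · rw [qt_K]
      linear_combination (s / 4) * ht' + (s * t' / 4) * hs
    · linear_combination hm'

/-- the automorphism `i ↦ j ↦ k ↦ i` -/
noncomputable def cyc (q : ℍ[K]) : ℍ[K] := qt q.re q.imK q.imI q.imJ

lemma cyc_qt (a b c d : K) : cyc (qt a b c d) = qt a d b c := rfl

lemma cyc3 (q : ℍ[K]) : cyc (cyc (cyc q)) = q := rfl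

lemma cyc_mul (p q : ℍ[K]) : cyc (p * q) = cyc p * cyc q := by
  rw [← qt_eta p, ← qt_eta q, qt_mul, cyc_qt, cyc_qt, cyc_qt, qt_mul]
  refine qt_ext ?_ ?_ ?_ ?_ <;> ring

lemma cyc_norm (q : ℍ[K]) : normSq (cyc q) = normSq q := by
  rw [← qt_eta q, cyc_qt, qt_norm, qt_norm]
  ring

lemma cyc_RQ {q : ℍ[K]} (h : RQ q) : RQ (cyc q) := ⟨h.1, h.2.2.2, h.2.1, h.2.2.1⟩

lemma cyc_OS {q : ℍ[K]} (h : OS q) : OS (cyc q) := by
  obtain ⟨h0, h1, h2, h3, h4, h5, h6, h7⟩ := h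
  refine ⟨h0, h3, h1, h2, h6, h4, h5, ?_⟩
  change q.re + q.imK + q.imI + q.imJ ∈ R
  have : q.re + q.imK + q.imI + q.imJ = q.re + q.imI + q.imJ + q.imK := by ring
  rw [this]
  exact h7

lemma Con_cyc {v : ℍ[K]} (h : Con (cyc v)) : Con v := by
  obtain ⟨g, w, h1, h2, h3, h4, h5⟩ := h
  refine ⟨cyc (cyc g), cyc (cyc w), ?_, cyc_RQ (cyc_RQ h2), cyc_OS (cyc_OS h3), h4, ?_⟩
  · rwa [cyc_norm, cyc_norm]
  · have := congrArg (fun x => cyc (cyc x)) h5
    simpa only [cyc_mul, cyc3] using this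

/-- the automorphism `i ↦ - i`, `j ↦ - k`, `k ↦ - j` -/
noncomputable def tau (q : ℍ[K]) : ℍ[K] := qt q.re (-q.imI) (-q.imK) (-q.imJ)

lemma tau_qt (a b c d : K) : tau (qt a b c d) = qt a (-b) (-d) (-c) := rfl

lemma tau2 (q : ℍ[K]) : tau (tau q) = q := by
  rw [← qt_eta q, tau_qt, tau_qt]
  exact qt_ext rfl (neg_neg _) (neg_neg _) (neg_neg _)

lemma tau_mul (p q : ℍ[K]) : tau (p * q) = tau p * tau q := by
  rw [← qt_eta p, ← qt_eta q, qt_mul, tau_qt, tau_qt, tau_qt, qt_mul]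
  refine qt_ext ?_ ?_ ?_ ?_ <;> ring

lemma tau_norm (q : ℍ[K]) : normSq (tau q) = normSq q := by
  rw [← qt_eta q, tau_qt, qt_norm, qt_norm]
  ring

lemma tau_RQ {q : ℍ[K]} (h : RQ q) : RQ (tau q) :=
  ⟨h.1, R2.neg_mem h.2.1, R2.neg_mem h.2.2.2, R2.neg_mem h.2.2.1⟩

lemma tau_OS {q : ℍ[K]} (h : OS q) : OS (tau q) := by
  obtain ⟨h0, h1, h2, h3, h4, h5, h6, h7⟩ := h
  rw [← qt_eta q, tau_qt]
  refine ⟨?_, ?_, ?_, ?_, ?_, ?_, ?_, ?_⟩ <;> simp only [qt_re, qt_I, qt_J, qt_K]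
  · exact h0
  · have : 2 * -q.imI = -(2 * q.imI) := by ring
    rw [this]
    exact R.neg_mem h1
  · have : 2 * -q.imK = -(2 * q.imK) := by ring
    rw [this]
    exact R.neg_mem h3
  · have : 2 * -q.imJ = -(2 * q.imJ) := by ring
    rw [this]
    exact R.neg_mem h2
  · have : s * (q.re - -q.imI) = s * (q.re - q.imI) + s * (2 * q.imI) := by ring
    rw [this]
    exact R.add_mem h4 (R.mul_mem s_mem h1)
  · have : s * (q.re - -q.imK) = s * (q.re - q.imK) + s * (2 * q.imK) := by ring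
    rw [this]
    exact R.add_mem h6 (R.mul_mem s_mem h3)
  · have : s * (q.re - -q.imJ) = s * (q.re - q.imJ) + s * (2 * q.imJ) := by ring
    rw [this]
    exact R.add_mem h5 (R.mul_mem s_mem h2)
  · have : q.re + -q.imI + -q.imK + -q.imJ =
        q.re + q.imI + q.imJ + q.imK - (2 * q.imI + 2 * q.imJ + 2 * q.imK) := by ring
    rw [this]
    exact R.sub_mem h7 (R.add_mem (R.add_mem h1 h2) h3)

lemma Con_tau {v : ℍ[K]} (h : Con (tau v)) : Con v := by
  obtain ⟨g, w, h1, h2, h3, h4, h5⟩ := h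
  refine ⟨tau g, tau w, ?_, tau_RQ h2, tau_OS h3, h4, ?_⟩
  · rwa [tau_norm]
  · have := congrArg tau h5
    simpa only [tau_mul, tau2] using this

theorem main {A B C : K} (hA : A ∈ R) (hB : B ∈ R) (hC : C ∈ R)
    (hn : normSq (qt 0 (A / 2) (B / 2) (C / 2)) ∈ R) : Con (qt 0 (A / 2) (B / 2) (C / 2)) := by
  have hs := s_sq
  have hf1 : f + 1 ∈ R := R.add_mem f_mem R.one_mem
  -- the sum is divisible by `s`
  have hS : D (A + B + C) := by
    refine D_sq (R.add_mem (R.add_mem hA hB) hC)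
      ⟨s * (2 * normSq (qt 0 (A / 2) (B / 2) (C / 2)) + (A * B + B * C + C * A)),
      R.mul_mem s_mem (R.add_mem (R.mul_mem two_mem hn)
        (R.add_mem (R.add_mem (R.mul_mem hA hB) (R.mul_mem hB hC)) (R.mul_mem hC hA))), ?_⟩
    rw [qt_norm]
    linear_combination (-(2 * (0 ^ 2 + (A / 2) ^ 2 + (B / 2) ^ 2 + (C / 2) ^ 2) +
      (A * B + B * C + C * A))) * hs
  by_cases h0 : D A
  · by_cases h1 : D B
    · -- everything is divisible by `s`
      have h2 : D C := by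
        have := D_add hS (D_neg (D_add h0 h1))
        rwa [add_neg_cancel_comm] at this
      obtain ⟨a, ha, rfl⟩ := h0
      obtain ⟨b, hb, rfl⟩ := h1
      obtain ⟨c, hc, rfl⟩ := h2
      refine ⟨1, _, Or.inl (map_one _), ⟨R2.one_mem, R2.zero_mem, R2.zero_mem, R2.zero_mem⟩,
        OS_of' (qt_re _ _ _ _) ha hb hc (qt_I _ _ _ _) (qt_J _ _ _ _) (qt_K _ _ _ _) hn,
        qt_re _ _ _ _, ?_⟩
      rw [one_mul, mul_one]
    · exact cas_axis hA hB hn h1 h0 (D_of_eq (D_add hS (D_neg h0)) (by ring))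
  · rcases ratio hA hB h0 with h | h | h | h
    · -- `(λ, 0, λ)`
      apply Con_cyc
      apply Con_cyc
      rw [cyc_qt, cyc_qt]
      refine cas_axis hB hC ?_ ?_ h (D_of_eq (D_add hS (D_neg h)) (by ring))
      · rw [qt_norm] at hn ⊢
        have e : 0 ^ 2 + (B / 2) ^ 2 + (C / 2) ^ 2 + (A / 2) ^ 2 =
          0 ^ 2 + (A / 2) ^ 2 + (B / 2) ^ 2 + (C / 2) ^ 2 := by ring
        rw [e]
        exact hn
      · intro h2
        exact h0 (D_of_eq (D_add hS (D_neg (D_add h h2))) (by ring))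
    · -- `(λ, λ, 0)`
      apply Con_cyc
      rw [cyc_qt]
      refine cas_axis hC hA ?_ h0 ?_ ?_
      · rw [qt_norm] at hn ⊢
        have e : 0 ^ 2 + (C / 2) ^ 2 + (A / 2) ^ 2 + (B / 2) ^ 2 =
          0 ^ 2 + (A / 2) ^ 2 + (B / 2) ^ 2 + (C / 2) ^ 2 := by ring
        rw [e]
        exact hn
      · exact D_of_eq (D_add (D_add hS (D_neg h)) (D_neg (D_two hA))) (by ring)
      · exact D_of_eq (D_add h (D_two hA)) (by ring)
    · exact cas_even hA hn h0 h (D_of_eq (D_add (D_add hS (D_neg h))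
        (D_neg (D_two (R.mul_mem hf1 hA)))) (by ring))
    · apply Con_tau
      rw [tau_qt]
      have e : qt (0 : K) (-(A / 2)) (-(C / 2)) (-(B / 2)) = qt 0 (-A / 2) (-C / 2) (-B / 2) :=
        qt_ext rfl (by ring) (by ring) (by ring)
      rw [e]
      refine cas_even (R.neg_mem hA) ?_ ?_ ?_ ?_
      · rw [qt_norm] at hn ⊢
        have e : 0 ^ 2 + (-A / 2) ^ 2 + (-C / 2) ^ 2 + (-B / 2) ^ 2 =
          0 ^ 2 + (A / 2) ^ 2 + (B / 2) ^ 2 + (C / 2) ^ 2 := by ring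
        rw [e]
        exact hn
      · intro h2
        exact h0 (D_of_eq (D_neg h2) (by ring))
      · exact D_of_eq (D_add (D_neg (D_add hS (D_neg h))) (D_two (R.mul_mem hf1 hA))) (by ring)
      · exact D_of_eq (D_neg h) (by ring)

theorem t_DES : S_DES := by
  intro v h0 h1 h2 h3 hn
  have e : v = qt 0 (2 * v.imI / 2) (2 * v.imJ / 2) (2 * v.imK / 2) := by
    conv_lhs => rw [← qt_eta v]
    refine qt_ext h0 ?_ ?_ ?_ <;> ring
  rw [e] at hn ⊢
  exact main h1 h2 h3 hn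

end Pool.Agent.U780.KT.DES
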